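import Pool.Agent.H.MP_7689c7_co.Bridge

namespace Pool.Agent.Results.MP_7689c7_co.Yes

open Pool.Agent.H.MP_7689c7_co

/-- The effective weight of a numerical semigroup of genus `g` is at most `⌊(g+1)²/8⌋`. -/
theorem result (g : ℕ) (S : AddSubmonoid ℕ) (hS : (S : Set ℕ)ᶜ.Finite) (hg : genus S = g) :
    ew S ≤ (g + 1) ^ 2 / 8 := hg ▸ ew_le S hS

end Pool.Agent.Results.MP_7689c7_co.Yes
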